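import Pool.Agent.Q116.CW.Fin

/-!
# Diagonal Ramsey numbers of colourings of given clique-width

A two-colouring of the edges of the complete graph on `Fin N` is a graph `G` (edges red, non-edges
blue). The clique-width of `G` is the least number `w` of labels with which `G` can be constructed
from single labelled vertices by disjoint unions, changes of labels and joins between two labels
(`CliqueWidthLe`, with the inductive predicate `Built`). Let `Rcw w k` be the Ramsey number of the
colourings with red clique-width at most `w`: the least `n` such that every such colouring of the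
complete graph on at least `n` vertices has a monochromatic set of size `k`; `ramsey k` is the usual
diagonal Ramsey number `R(k, k)`.

We determine `log (Rcw w k)` asymptotically in terms of `w`, `k` and `R(k, k)`, except for `k` close
to `(log w) ^ j` for an integer `j ≥ 2`.

Outline. Upper bounds: a set `U` of vertices has a cut with between `|U| / t` and `2 |U| / t` vertices
of `U` on one side, which fall into `w` classes of vertices with the same neighbours on the other
side. Let `A` be the largest class, let `P` and `M` be its neighbours and non-neighbours on the other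
side. Either `A` has only cliques of size at most `b` or only independent sets of size at most `a`, or
the clique number of `P` is less by `b` than that of `U` and the independence number of `M` is less by
`a` than that of `U`. This gives a recursion of Erdős-Szekeres type in large steps (`recursion`): the
reduction of the clique number by a factor `q` and of the independence number by a factor `p` costs
only the factor `12 (p + q) w C(p + q, p)`, instead of a factor exponential in `k`. Linear regime: one
step with constant `p`. Staircase: steps with `p = (log w) ^ (1 - η)`,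
`q = exp ((log w) ^ (η / 2))`. Lower bounds: every graph on `w` vertices has clique-width at most `w`,
and iterated lexicographic products of Erdős's random graphs on `w` vertices.
-/

set_option autoImplicit false

namespace Pool.Agent.Results.MP_28724c_co.CliqueWidth

open Q116.CW Filter Topology

/-- (1) For all `ε > 0`, all large `k` and all `w ≥ 1` the Ramsey number `Rcw w k` of the colourings of
clique-width at most `w` is between `min (w + 1) (R(k, k))` and `min (exp (ε k) w) (R(k, k))`. So every
colouring on `N` vertices without monochromatic `K_k` has clique-width at least `N exp (- ε k)`.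
(2) If the clique-width is at most `exp (c k)` with `0 ≤ c ≤ (log 2) / 2`, then the limit of
`log (Rcw w k) / k` exists and is equal to `c`.
(3) For `w ≥ w0 ε` and all `k ≥ 2`, with `x = log k / log log w`, the number
`log (Rcw w k) / log w` is between `⌈(1 - ε) x⌉ - 1` and `⌈(1 + ε) x⌉ - 1 + ε (1 + x)`.
(4) For all `w ≥ 2` and `k > log₂ (w ^ 2)` the exponent `log (Rcw w k) / log k` is between
`L / (12 log L)` and `5 L / log L`, where `L = log (3 w)`. -/
theorem result :
    (∀ ε : ℝ, 0 < ε → ∃ K : ℕ, ∀ k ≥ K, ∀ w : ℕ, 1 ≤ w →
      min (w + 1) (ramsey k) ≤ Rcw w k ∧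
      (Rcw w k : ℝ) ≤ min (Real.exp (ε * k) * w) (ramsey k)) ∧
    (∀ c : ℝ, 0 ≤ c → c ≤ Real.log 2 / 2 →
      Tendsto (fun k : ℕ => Real.log (Rcw ⌊Real.exp (c * k)⌋₊ k) / k) atTop (𝓝 c)) ∧
    (∀ ε : ℝ, 0 < ε → ε < 1 → ∃ w0 : ℕ, ∀ w : ℕ, w0 ≤ w → ∀ k : ℕ, 2 ≤ k →
      (⌈(1 - ε) * (Real.log k / Real.log (Real.log w))⌉ - 1) * Real.log w ≤
        Real.log (Rcw w k) ∧
      Real.log (Rcw w k) ≤ (⌈(1 + ε) * (Real.log k / Real.log (Real.log w))⌉ - 1 +
        ε * (1 + Real.log k / Real.log (Real.log w))) * Real.log w) ∧
    (∀ w k : ℕ, 2 ≤ w → Nat.log 2 (w ^ 2) < k →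
      1 / 12 * Real.log k * (Real.log (3 * w) / Real.log (Real.log (3 * w))) ≤
        Real.log (Rcw w k) ∧
      Real.log (Rcw w k) ≤
        5 * Real.log k * (Real.log (3 * w) / Real.log (Real.log (3 * w)))) := by
  refine ⟨?_, fun c h0 h1 => rate c h0 h1, ?_, fun w k hw hk => uniform hw hk⟩
  · intro ε hε
    obtain ⟨K, hK2, hK⟩ := linear ε hε
    refine ⟨K, fun k hk w hw => ⟨min_le_Rcw hw (hK2.trans hk), ?_⟩⟩
    rw [le_min_iff]
    refine ⟨hK k hk w hw, ?_⟩
    exact_mod_cast Rcw_le_ramsey (by omega : 1 ≤ k)
  · intro ε hε hε1
    obtain ⟨w1, h1⟩ := stair_lower ε hε hε1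
    obtain ⟨w2, h2⟩ := stair_upper ε hε hε1
    exact ⟨max w1 w2, fun w hw k hk => ⟨h1 w ((le_max_left _ _).trans hw) k hk,
      h2 w ((le_max_right _ _).trans hw) k hk⟩⟩

end Pool.Agent.Results.MP_28724c_co.CliqueWidth
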