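import Pool.Agent.Q119.LD.Graph

/-!
# Diagonal Ramsey numbers of colourings of given algebraic degree

The vertices of the complete graph are the integers `0, …, 2 ^ m - 1`; a red/blue colouring has
degree at most `d` if the colour of the edge `x < y` is the value of a polynomial of degree at most
`d` over `F_2` in the `2 m` binary digits of `x` and `y` (`d = 2 m` gives all colourings).
`MonoK d m k`: every such colouring contains a monochromatic `K_k`. So the Ramsey number of the
colourings of degree `d` is `2 ^ m` up to a factor two with the least `m` such that `MonoK d m k`.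
-/

set_option autoImplicit false

namespace Pool.Agent.Results.MP_28724c_co.DegreeThreshold

open Finset Filter Q119.LD

/-- (1) If `t + 2 d ∑_{j < d} (2 t choose j) ≤ m`, then every colouring of degree at most `d` on
`2 ^ m` vertices contains a monochromatic `K_k` with `k = 2 ^ t`.
(2) If `d ≥ 1`, `16 m ≤ ∑_{j < d} (t choose j)` and `k ≥ 48 * 2 ^ t`, then some colouring of degree
at most `d` on `2 ^ m` vertices contains no monochromatic `K_k`.
(3) For every fixed `d ≥ 2` the logarithm of the Ramsey number of the colourings of degree at most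
`d` has the exact order `(log k) ^ (d - 1)`.
(4) For every `ε > 0` there is `δ > 0` such that for large `k` every colouring of degree at most
`δ log k` on `2 ^ m` vertices, `m ≥ k ^ ε`, contains a monochromatic `K_k`.
(5) For large `k` there are colourings of degree at most `⌊log₂ k⌋` on `2 ^ m` vertices,
`m = ⌊k / 2000⌋`, without a monochromatic `K_k`.
So the least degree of colourings with `log n ≥ c k` is of order `log k`. -/
theorem result :
    (∀ d t m : ℕ, t + 2 * d * ∑ j ∈ range d, (2 * t).choose j ≤ m → MonoK d m (2 ^ t)) ∧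
    (∀ d t m k : ℕ, 1 ≤ d → 16 * m ≤ ∑ j ∈ range d, t.choose j → 48 * 2 ^ t ≤ k →
      ¬ MonoK d m k) ∧
    (∀ d : ℕ, 2 ≤ d → ∃ c C : ℝ, 0 < c ∧ 0 < C ∧ ∀ᶠ k : ℕ in atTop, ∀ m : ℕ,
      (C * Real.log k ^ (d - 1) ≤ m → MonoK d m k) ∧
      ((m : ℝ) ≤ c * Real.log k ^ (d - 1) → ¬ MonoK d m k)) ∧
    (∀ ε : ℝ, 0 < ε → ∃ δ : ℝ, 0 < δ ∧ ∀ᶠ k : ℕ in atTop, ∀ d m : ℕ,
      (d : ℝ) ≤ δ * Real.log k → (k : ℝ) ^ ε ≤ m → MonoK d m k) ∧
    (∀ᶠ k : ℕ in atTop, ∀ d m : ℕ, Nat.log 2 k ≤ d → 2000 * m ≤ k → ¬ MonoK d m k) := by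
  simp only [monoK_iff]
  refine ⟨fun d t m h => arrow_upper 2 d m t (by
      have h1 : d * (2 * ∑ j ∈ range d, (2 * t).choose j) =
        2 * d * ∑ j ∈ range d, (2 * t).choose j := by ring
      rw [h1]
      exact h),
    fun d t m k hd hm hk => arrow_lower 2 d m t k le_rfl hd hm (by simpa using hk), ?_,
    fun ε hε => eventually_upper_small 2 (by norm_num) ε hε, eventually_lower_exp 2 le_rfl⟩
  intro d hd
  refine ⟨1 / (16 * 2 ^ (d - 1) * (d - 1).factorial), (1 + d ^ 2 * (2 : ℕ) ^ d) * 3 ^ (d - 1),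
    by positivity, by positivity, ?_⟩
  filter_upwards [eventually_upper 2 d (by norm_num) hd, eventually_lower 2 d le_rfl (by omega)]
    with k h1 h2 m
  exact ⟨h1 m, h2 m⟩

end Pool.Agent.Results.MP_28724c_co.DegreeThreshold
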