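import Pool.Agent.Q123.LO.Upper
import Pool.Agent.Q123.LO.Lower

/-!
# Diagonal Ramsey numbers of colourings determined by `t` linear orders

A two-colouring of the edges of the complete graph on `Fin N` is a graph `G` (edges: first colour,
non-edges: second colour). `Determined G t`: there are `t` linear orders of the vertices (given by
injective numberings) such that the colour of a pair `x, y` only depends on the set of the orders in
which `x` precedes `y`. `Mono G S`: all pairs of elements of `S` have the same colour.

Write `R_t(k)` for the least `N` such that every colouring of the edges of `K_N` that is determined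
by `t` linear orders has a monochromatic `K_k`. The theorem of Erdős and Szekeres, applied `t - 1`
times, gives the exponent `2 ^ (t - 1)` in `R_t(k)`. We show that the true exponent is linear in `t`:
`k ^ ⌊t / 4⌋ < R_t(k) ≤ (2 k ^ 2) ^ t` for all `k ≥ 9 t ^ 2`.

Outline. Upper bound: cutting two sets at their medians in one order leaves two halves which are
separated in this order; so a set `S` contains two sets with `|S| / 2 ^ t` elements which are
separated in all orders and hence homogeneous to one another, and the largest product of the sizes
of a red and of a blue clique is superadditive over such pairs. Lower bound: the colour is the parity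
of the number of the orders in which `x` precedes `y`, for `2 s` independent random orders. Let
`Z(k)` be the number of the `2 s`-tuples of permutations of `k` points for which all the parities are
even. By Fourier inversion in the group of sign vectors and the inequality of the arithmetic and
the geometric mean, `k` given points form a monochromatic set in at most `2 Z(k) / (k !) ^ (2 s)` of
the cases. If the points are inserted one after the other, the same inequality shows that the worst
case for the insertion of the last point is that of `2 s` equal orders, where the positions of
insertion are equal in pairs; so `Z(k + 1) ≤ (2 s (k + 1)) ^ s Z(k)`. This gives probability at most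
`2 ((2 s) ^ k / k !) ^ s`, and the union bound over all sets of `k` points applies.
-/

set_option autoImplicit false

namespace Pool.Agent.Results.MP_28724c_co.LinearOrders

open Q123.LO

/-- (1) For `t ≥ 1` every two-colouring determined by `t` linear orders on `N ≥ (2 k ^ 2) ^ t`
vertices has a monochromatic set of size `k`.
(2) For `k ≥ 9 t ^ 2`, `t ≥ 1`, there is a two-colouring of the edges of the complete graph on
`k ^ ⌊t / 4⌋` vertices which is determined by `t` linear orders and has no monochromatic set of size
`k`. So the Ramsey number of these colourings is `k ^ Θ(t)`.
(3) More generally `2 s ≥ 2` orders are enough for `N` vertices if `6 N (6 s) ^ s ≤ k ^ (s + 1)`,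
`k ≥ 2`.
(4) For `k ≥ 12` there are colourings determined by `⌊k / 6⌋` linear orders on `2 ^ ⌊k / 12⌋`
vertices without monochromatic set of size `k`; by (1) fewer than `c k / log k` orders are not
enough for such exponential growth. -/
theorem result :
    (∀ (t k N : ℕ) (G : SimpleGraph (Fin N)), 1 ≤ t → Determined G t → (2 * k ^ 2) ^ t ≤ N →
      ∃ S : Finset (Fin N), k ≤ S.card ∧ Mono G (S : Set (Fin N))) ∧
    (∀ t k : ℕ, 1 ≤ t → 9 * t ^ 2 ≤ k → ∃ G : SimpleGraph (Fin (k ^ (t / 4))),
      Determined G t ∧ ∀ S : Finset (Fin (k ^ (t / 4))),
        Mono G (S : Set (Fin (k ^ (t / 4)))) → S.card < k) ∧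
    (∀ s k N : ℕ, 1 ≤ s → 2 ≤ k → 6 * N * (6 * s) ^ s ≤ k ^ (s + 1) →
      ∃ G : SimpleGraph (Fin N), Determined G (2 * s) ∧
        ∀ S : Finset (Fin N), Mono G (S : Set (Fin N)) → S.card < k) ∧
    (∀ k : ℕ, 12 ≤ k → ∃ G : SimpleGraph (Fin (2 ^ (k / 12))), Determined G (k / 6) ∧
      ∀ S : Finset (Fin (2 ^ (k / 12))), Mono G (S : Set (Fin (2 ^ (k / 12)))) → S.card < k) :=
  ⟨fun _ k _ G ht hG hN => upper ht k G hG hN, fun _ _ ht hk => lower_simple ht hk,
    fun _ _ _ hs hk h => lower_general hs le_rfl hk h, fun _ hk => lower_exp hk⟩

end Pool.Agent.Results.MP_28724c_co.LinearOrders
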