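import Pool.Agent.Q110.RK.Frame
import Pool.Agent.Q110.RK.Lower
import Pool.Agent.Q110.RK.Min
import Pool.Agent.Q110.RK.Grow
import Pool.Agent.Q68.RK.SPR
import Pool.Agent.Q130.RK.FAC
import Pool.Agent.Q121.RK_RNK
import Pool.Agent.Q214.RK.Iso
import Pool.Agent.Q214.RK.Cnt
import Pool.Agent.Q192.RK_BLW
import Pool.Agent.Q150.RK.ICT
import Pool.Agent.Q154.RK.CCT
import Pool.Agent.Q154.RK.UNI
import Pool.Agent.Q154.RK.NUM

/-!
# Diagonal Ramsey numbers of colourings of given rank over the field with two elements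

A red/blue colouring of the edges of the complete graph on `Fin N` is a graph `G` (red edges). Its
rank is the rank over the field with two elements of the adjacency matrix of `G` (`rankTwo`). Let
`ramseyRank r k` be the least `n` such that for `N ≥ n` every colouring of rank at most `r` of the
complete graph on `N` vertices has a monochromatic set of `k` vertices (`Mono`). Let
`ramseyMinRank r k` be the same number for the larger class of the colourings given by a symmetric
matrix of rank at most `r` whose diagonal is arbitrary (`ColourRankLe`).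

Outline. A graph of rank at most `2 m + 1` is given by vectors `φ x` in the symplectic space of
dimension `2 m` over the field with two elements: `x` and `y` are adjacent if `om (φ x) (φ y) = 1`. A
symplectic spread (the lines through `0` of the plane over the field with `2 ^ m` elements) gives
`2 ^ m + 1` classes which are independent. Exact value: blow-ups of the graph on all non-zero vectors
(`4 ^ m - 1` vertices, independent sets of at most `2 ^ m - 1`) and of the graph on the non-zeros of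
an elliptic quadratic form (`2 ^ (m - 1) (2 ^ m + 1)` vertices, independent sets of at most
`2 ^ (m - 1)`). Lower bound for all `k`: random vectors; the number of `k`-tuples of pairwise
orthogonal vectors is at most `2 ^ (k + m k + m (m + 1) / 2)`.
-/

set_option autoImplicit false

namespace Pool.Agent.Results.MP_28724c_co.RankOverF2

open Pool.Agent.Q110.RK

/-- (1) `R_r(k) ≤ (k - 1) (2 ^ ⌊r / 2⌋ + 1) + 1`, (2) with equality if `r ≥ 2`, `k ≥ 4` and
`4 ^ ⌊r / 2⌋ ≤ 2 k`. (3) A lower bound for `1 ≤ m ≤ k`, `2 m ≤ r`; for `m = k` it is Erdős's bound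
`2 ^ (k / 2)`, up to the factor `k / 16`. (4) The numbers for arbitrary diagonals are at most
`2 (k - 1) (2 ^ ⌊(r + 1) / 2⌋ + 1) + 1`. (5) Growth rates for ranks `⌊2 c k⌋`. -/
theorem result :
    (∀ r k : ℕ, 1 ≤ k → ramseyRank r k ≤ (k - 1) * (2 ^ (r / 2) + 1) + 1) ∧
    (∀ r k : ℕ, 2 ≤ r → 4 ≤ k → 4 ^ (r / 2) ≤ 2 * k →
      ramseyRank r k = (k - 1) * (2 ^ (r / 2) + 1) + 1) ∧
    (∀ m k r : ℕ, 1 ≤ m → m ≤ k → 2 * m ≤ r →
      (k : ℝ) / 16 * 2 ^ ((m : ℝ) - (m : ℝ) ^ 2 / (2 * k)) < ramseyRank r k) ∧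
    (∀ r k : ℕ, 1 ≤ k → ramseyRank r k ≤ ramseyMinRank r k ∧
      ramseyMinRank r k ≤ 2 * ((k - 1) * (2 ^ ((r + 1) / 2) + 1)) + 1) ∧
    (∀ c : ℝ, 0 ≤ c → c ≤ 1 → ∀ ε : ℝ, 0 < ε → ∃ K : ℕ, ∀ k ≥ K,
      (c - c ^ 2 / 2) * Real.log 2 - ε ≤ Real.log (ramseyRank ⌊2 * c * k⌋₊ k) / k ∧
      Real.log (ramseyRank ⌊2 * c * k⌋₊ k) / k ≤ Real.log (ramseyMinRank ⌊2 * c * k⌋₊ k) / k ∧
      Real.log (ramseyMinRank ⌊2 * c * k⌋₊ k) / k ≤ c * Real.log 2 + ε) := by
  have hfac : S_factor := Pool.Agent.Q130.RK.factor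
  have hspr : S_spread := Pool.Agent.Q68.RK.spread
  have hframe : S_frame := frame hfac hspr Pool.Agent.Q121.RK.rank_le
  have hlow : ∀ m k r : ℕ, 1 ≤ m → m ≤ k → 2 * m ≤ r →
      (k : ℝ) / 16 * 2 ^ ((m : ℝ) - (m : ℝ) ^ 2 / (2 * k)) < ramseyRank r k :=
    lower hframe Pool.Agent.Q154.RK.union (Pool.Agent.Q150.RK.iso_tuples
      Pool.Agent.Q214.RK.iso_finrank) Pool.Agent.Q154.RK.clique_tuples Pool.Agent.Q154.RK.num
  refine ⟨hframe.1, ?_, hlow, fun r k hk => minRank_bounds hfac hspr r k hk, ?_⟩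
  · intro r k hr hk h4
    obtain ⟨m, hm⟩ : ∃ m, r / 2 = m + 1 := ⟨r / 2 - 1, by omega⟩
    have h1 := Pool.Agent.Q192.RK.blow hframe Pool.Agent.Q214.RK.card_qu
      Pool.Agent.Q214.RK.iso_card Pool.Agent.Q214.RK.iso_qu Pool.Agent.Q121.RK.clique_le m k r hk
      (by rw [← hm]; exact h4) (by omega)
    have h2 := hframe.1 r k (by omega)
    rw [hm] at h2 ⊢
    omega
  · intro c hc hc1 ε hε
    obtain ⟨K₁, h1⟩ := growth_lower ramseyRank hlow c hc hc1 ε hε
    obtain ⟨K₂, h2⟩ := minRank_growth hfac hspr c hc ε hε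
    refine ⟨max K₁ (max K₂ 2), fun k hk => ⟨h1 k ((le_max_left _ _).trans hk), ?_,
      h2 k (((le_max_left _ _).trans (le_max_right _ _)).trans hk)⟩⟩
    have hk2 : 2 ≤ k := ((le_max_right _ _).trans (le_max_right _ _)).trans hk
    have hle := (minRank_bounds hfac hspr ⌊2 * c * k⌋₊ k (by omega)).1
    rcases Nat.eq_zero_or_pos (ramseyRank ⌊2 * c * (k : ℝ)⌋₊ k) with h0 | h0
    · rw [h0, Nat.cast_zero, Real.log_zero, zero_div]
      exact div_nonneg (Real.log_natCast_nonneg _) (Nat.cast_nonneg _)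
    · refine div_le_div_of_nonneg_right (Real.log_le_log ?_ ?_) (Nat.cast_nonneg _)
      · exact_mod_cast h0
      · exact_mod_cast hle

end Pool.Agent.Results.MP_28724c_co.RankOverF2
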